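import Pool.Agent.helper51.RMX.Spec

/-!
# Row rmx:EPX (MP_24e2e7_nt)
-/

set_option autoImplicit false

namespace Pool.Agent.RMX

open Pool.Agent.RB NumberField IsDedekindDomain Module
open scoped nonZeroDivisors Real Classical IsMulCommutative

theorem EPX_ev (G : Type) [CommGroup G] [Fintype G] (χ : G →* ℂˣ) (y : MonoidAlgebra ℤ G) :
    evZ χ y = ∑ τ : G, ((y.coeff τ : ℤ) : ℂ) * ((χ τ : ℂˣ) : ℂ) := by
  have h1 : evZ χ y = (MonoidAlgebra.lift ℤ ℂ G ((Units.coeHom ℂ).comp χ)) y := rfl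
  rw [h1, MonoidAlgebra.lift_apply', Finsupp.sum_fintype]
  · refine Finset.sum_congr rfl fun τ _ => ?_
    rfl
  · intro τ
    simp

theorem EPX_sep (G : Type) [CommGroup G] [Finite G] (y : MonoidAlgebra ℤ G) (h : ∀ ψ : G →* ℂˣ, evZ ψ y = 0) :
    y = 0 := by
  have : Fintype G := Fintype.ofFinite G
  ext σ
  have h1 : ∑ χ : G →* ℂˣ, evZ χ y * ((χ σ⁻¹ : ℂˣ) : ℂ) = 0 :=
    Finset.sum_eq_zero fun χ _ => by rw [h χ, zero_mul]
  have h2 : ∑ χ : G →* ℂˣ, evZ χ y * ((χ σ⁻¹ : ℂˣ) : ℂ) = (Nat.card G : ℂ) * ((y.coeff σ : ℤ) : ℂ) := by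
    have h3 : ∀ χ : G →* ℂˣ, evZ χ y * ((χ σ⁻¹ : ℂˣ) : ℂ) =
        ∑ τ : G, ((y.coeff τ : ℤ) : ℂ) * ((χ (τ * σ⁻¹) : ℂˣ) : ℂ) := by
      intro χ
      rw [EPX_ev G χ y, Finset.sum_mul]
      refine Finset.sum_congr rfl fun τ _ => ?_
      rw [map_mul, Units.val_mul, mul_assoc]
    rw [Finset.sum_congr rfl fun χ _ => h3 χ, Finset.sum_comm, Finset.sum_eq_single σ]
    · rw [← Finset.mul_sum, CO1_orth, if_pos (mul_inv_cancel σ), mul_comm]
    · intro τ _ hτ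
      rw [← Finset.mul_sum, CO1_orth, if_neg (fun h => hτ (mul_inv_eq_one.1 h)), mul_zero]
    · intro hσ
      exact absurd (Finset.mem_univ σ) hσ
  rw [h1] at h2
  have h4 : (Nat.card G : ℂ) ≠ 0 := Nat.cast_ne_zero.2 Nat.card_pos.ne'
  have h5 := (mul_eq_zero.1 h2.symm).resolve_left h4
  have h6 : y.coeff σ = 0 := by exact_mod_cast h5
  rw [h6]
  rfl

theorem EPX_single {G : Type} [Group G] (ψ : G →* ℂˣ) (g : G) :
    evZ ψ (MonoidAlgebra.single g 1) = ((ψ g : ℂˣ) : ℂ) := by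
  have h1 := MonoidAlgebra.lift_single (R := ℤ) ((Units.coeHom ℂ).comp ψ) g (1 : ℤ)
  rw [one_smul] at h1
  exact h1

theorem EPX_S {G : Type} [CommGroup G] [Finite G] (B : Subgroup G) (ψ : G →* ℂˣ) :
    ((∀ b ∈ B, ψ b = 1) → evZ ψ (∑ᶠ b : B, MonoidAlgebra.single (b : G) (1 : ℤ)) = (Nat.card B : ℂ)) ∧
    (¬ (∀ b ∈ B, ψ b = 1) → evZ ψ (∑ᶠ b : B, MonoidAlgebra.single (b : G) (1 : ℤ)) = 0) := by
  have : Fintype B := Fintype.ofFinite B
  have e : evZ ψ (∑ᶠ b : B, MonoidAlgebra.single (b : G) (1 : ℤ)) = ∑ b : B, ((ψ (b : G) : ℂˣ) : ℂ) := by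
    rw [finsum_eq_sum_of_fintype, map_sum]
    exact Finset.sum_congr rfl fun b _ => EPX_single ψ b
  rw [e]
  constructor
  · intro h
    have h1 : ∀ b : B, ((ψ (b : G) : ℂˣ) : ℂ) = 1 := fun b => by rw [h b b.2, Units.val_one]
    rw [Finset.sum_congr rfl fun b _ => h1 b, Finset.sum_const, Finset.card_univ, nsmul_eq_mul, mul_one,
      Nat.card_eq_fintype_card]
  · intro h
    obtain ⟨b, hb⟩ := not_forall.1 h
    obtain ⟨hbB, hb1⟩ := Classical.not_imp.1 hb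
    have h1 : ((ψ b : ℂˣ) : ℂ) * ∑ x : B, ((ψ (x : G) : ℂˣ) : ℂ) = ∑ x : B, ((ψ (x : G) : ℂˣ) : ℂ) := by
      rw [Finset.mul_sum]
      refine Fintype.sum_equiv (Equiv.mulLeft (⟨b, hbB⟩ : B)) _ _ (fun x => ?_)
      show ((ψ b : ℂˣ) : ℂ) * ((ψ (x : G) : ℂˣ) : ℂ) = ((ψ (b * (x : G)) : ℂˣ) : ℂ)
      rw [map_mul, Units.val_mul]
    have h2 : (((ψ b : ℂˣ) : ℂ) - 1) * ∑ x : B, ((ψ (x : G) : ℂˣ) : ℂ) = 0 := by
      rw [sub_mul, h1, one_mul, sub_self]
    rcases mul_eq_zero.mp h2 with h3 | h3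
    · exact absurd (Units.ext (by rw [Units.val_one]; exact sub_eq_zero.mp h3)) hb1
    · exact h3

theorem EPX_mem {G : Type} [CommGroup G] [Finite G] (B B' : Subgroup G) (c : G) (ψ : G →* ℂˣ) :
    ψ ∈ PsN B B' c ↔ (∀ b ∈ B, ψ b = 1) ∧ ψ c = -1 ∧ ¬ ∀ b ∈ B', ψ b = 1 := by
  unfold PsN Psi
  rw [Finset.mem_sdiff, Finset.mem_filter, Finset.mem_filter]
  constructor
  · rintro ⟨⟨-, h1, h2⟩, h3⟩
    exact ⟨h1, h2, fun h4 => h3 ⟨Finset.mem_univ _, h4, h2⟩⟩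
  · rintro ⟨h1, h2, h3⟩
    exact ⟨⟨Finset.mem_univ _, h1, h2⟩, fun h4 => h3 h4.2.1⟩

theorem EPX : EPX_stmt := by
  intro G _ _ B B' c hc hBB
  have hcc : ∀ ψ : G →* ℂˣ, ψ c = 1 ∨ ψ c = -1 := by
    intro ψ
    have h1 : ψ c * ψ c = 1 := by rw [← map_mul, hc, map_one]
    have h2 : (((ψ c : ℂˣ) : ℂ)) ^ 2 = 1 := by
      rw [pow_two, ← Units.val_mul, h1, Units.val_one]
    rcases CO1_sq h2 with h3 | h3
    · exact Or.inl (Units.ext (by rw [h3, Units.val_one]))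
    · exact Or.inr (Units.ext (by rw [h3, Units.val_neg, Units.val_one]))
  constructor
  · refine ⟨(Nat.card B' : MonoidAlgebra ℤ G) * ((∑ᶠ b : B, MonoidAlgebra.single (b : G) (1 : ℤ)) *
      (1 - MonoidAlgebra.single c 1)) - (Nat.card B : MonoidAlgebra ℤ G) *
      ((∑ᶠ b : B', MonoidAlgebra.single (b : G) (1 : ℤ)) * (1 - MonoidAlgebra.single c 1)),
      2 * (Nat.card B : ℤ) * (Nat.card B' : ℤ), ?_, ?_, ?_⟩
    · have h1 : (Nat.card B : ℤ) ≠ 0 := Nat.cast_ne_zero.2 Nat.card_pos.ne'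
      have h2 : (Nat.card B' : ℤ) ≠ 0 := Nat.cast_ne_zero.2 Nat.card_pos.ne'
      exact mul_ne_zero (mul_ne_zero two_ne_zero h1) h2
    · intro ψ hψ
      obtain ⟨h1, h2, h3⟩ := (EPX_mem B B' c ψ).1 hψ
      refine ⟨h2, ?_⟩
      rw [map_sub, map_mul, map_mul, map_mul, map_mul, map_sub, map_one, EPX_single, (EPX_S B ψ).1 h1,
        (EPX_S B' ψ).2 h3, h2, map_natCast, map_natCast, Units.val_neg, Units.val_one]
      push_cast
      ring
    · intro ψ hψ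
      rw [map_sub, map_mul, map_mul, map_mul, map_mul, map_sub, map_one, EPX_single, map_natCast, map_natCast]
      rcases hcc ψ with h2 | h2
      · rw [h2, Units.val_one, sub_self]
        ring
      · by_cases h1 : ∀ b ∈ B, ψ b = 1
        · by_cases h3 : ∀ b ∈ B', ψ b = 1
          · rw [(EPX_S B ψ).1 h1, (EPX_S B' ψ).1 h3]
            ring
          · exact absurd ((EPX_mem B B' c ψ).2 ⟨h1, h2, h3⟩) hψ
        · have h3 : ¬ ∀ b ∈ B', ψ b = 1 := fun h => h1 fun b hb => h b (hBB hb)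
          rw [(EPX_S B ψ).2 h1, (EPX_S B' ψ).2 h3]
          ring
  · intro y
    constructor
    · intro hy
      have hy' : ∀ ψ, ψ ∉ PsN B B' c → evZ ψ y = 0 := hy
      refine ⟨⟨fun b hb => ?_, ?_⟩, ?_⟩
      · rw [← sub_eq_zero]
        refine EPX_sep G _ fun ψ => ?_
        rw [map_sub, map_mul, EPX_single]
        by_cases hψ : ψ ∈ PsN B B' c
        · rw [((EPX_mem B B' c ψ).1 hψ).1 b hb, Units.val_one, one_mul, sub_self]
        · rw [hy' ψ hψ, mul_zero, sub_zero]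
      · rw [← sub_eq_zero]
        refine EPX_sep G _ fun ψ => ?_
        rw [map_sub, map_mul, EPX_single, map_neg]
        by_cases hψ : ψ ∈ PsN B B' c
        · rw [((EPX_mem B B' c ψ).1 hψ).2.1, Units.val_neg, Units.val_one]
          ring
        · rw [hy' ψ hψ]
          ring
      · refine EPX_sep G _ fun ψ => ?_
        rw [map_mul]
        by_cases hψ : ψ ∈ PsN B B' c
        · rw [(EPX_S B' ψ).2 ((EPX_mem B B' c ψ).1 hψ).2.2, zero_mul]
        · rw [hy' ψ hψ, mul_zero]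
    · rintro ⟨⟨h1, h2⟩, h3⟩
      show ∀ ψ, ψ ∉ PsN B B' c → evZ ψ y = 0
      intro ψ hψ
      by_contra he
      apply hψ
      rw [EPX_mem]
      refine ⟨fun b hb => ?_, ?_, fun h4 => ?_⟩
      · have h4 := congrArg (evZ ψ) (h1 b hb)
        rw [map_mul, EPX_single] at h4
        apply Units.ext
        rw [Units.val_one]
        exact mul_right_cancel₀ he (h4.trans (one_mul _).symm)
      · have h4 := congrArg (evZ ψ) h2
        rw [map_mul, EPX_single, map_neg] at h4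
        apply Units.ext
        rw [Units.val_neg, Units.val_one]
        refine mul_right_cancel₀ he (h4.trans ?_)
        ring
      · have h5 := congrArg (evZ ψ) h3
        rw [map_mul, map_zero, (EPX_S B' ψ).1 h4] at h5
        rcases mul_eq_zero.1 h5 with h6 | h6
        · exact Nat.cast_ne_zero.2 (Nat.card_pos (α := B')).ne' h6
        · exact he h6

end Pool.Agent.RMX
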